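import Mathlib

/-!
# Definitions for the sparse part of the pivot-minor problem
-/

set_option autoImplicit false

namespace Pool.Agent.Helper35.PM

open Finset
open scoped Classical

/-! ## Pivots -/

/-- `B` arises from `A` by pivoting at an edge `uv` (without exchange of the labels `u`, `v`). -/
def PivotStep {V : Type} (A B : SimpleGraph V) : Prop :=
  ∃ u v : V, A.Adj u v ∧
    B = SimpleGraph.fromRel (fun x y => Xor' (A.Adj x y)
      ((((A.Adj u x ∧ A.Adj v x) ∧ (A.Adj u y ∧ ¬ A.Adj v y ∧ y ≠ v)) ∨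
        ((A.Adj u x ∧ ¬ A.Adj v x ∧ x ≠ v) ∧ (A.Adj u y ∧ A.Adj v y)) ∨
        ((A.Adj u x ∧ A.Adj v x) ∧ (A.Adj v y ∧ ¬ A.Adj u y ∧ y ≠ u)) ∨
        ((A.Adj v x ∧ ¬ A.Adj u x ∧ x ≠ u) ∧ (A.Adj u y ∧ A.Adj v y)) ∨
        ((A.Adj u x ∧ ¬ A.Adj v x ∧ x ≠ v) ∧ (A.Adj v y ∧ ¬ A.Adj u y ∧ y ≠ u)) ∨
        ((A.Adj v x ∧ ¬ A.Adj u x ∧ x ≠ u) ∧ (A.Adj u y ∧ ¬ A.Adj v y ∧ y ≠ v)))))

/-- `H` is a pivot-minor of `G`. -/
def HasPM {W V : Type} (H : SimpleGraph W) (G : SimpleGraph V) : Prop :=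
  ∃ G' : SimpleGraph V, Relation.ReflTransGen PivotStep G G' ∧ Nonempty (H ↪g G')

/-- The vector of a vertex `x` with respect to a set `R` of rows: the unit vector if `x` is a row,
the neighbourhood of `x` in `R` otherwise (`R` is always independent). -/
noncomputable def vec {V : Type} (G : SimpleGraph V) (R : Finset V) (x : V) : V → ZMod 2 :=
  fun r => if r ∈ R ∧ (x = r ∨ G.Adj x r) then 1 else 0

/-- A projective space `PG(k-1,2)` minor in the binary matroid of the pair (rows, columns). -/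
def HasPG {V : Type} (G : SimpleGraph V) (k : ℕ) : Prop :=
  ∃ R : Finset V, (∀ x ∈ R, ∀ y ∈ R, ¬ G.Adj x y) ∧
    ∃ (D : Set V) (f : Finset (Fin k) → V) (Φ : (V → ZMod 2) →ₗ[ZMod 2] (Fin k → ZMod 2)),
      (∀ d ∈ D, Φ (vec G R d) = 0) ∧
      (∀ S : Finset (Fin k), S.Nonempty →
        Φ (vec G R (f S)) = fun i => if i ∈ S then 1 else 0) ∧
      (∀ S : Finset (Fin k), S.Nonempty →
        vec G R (f S) - ∑ i ∈ S, vec G R (f {i}) ∈ Submodule.span (ZMod 2) (vec G R '' D))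

/-- `n` vertices (columns) and rows `ρ P` that realise all patterns on the columns; the rows are
distinct and pairwise non-adjacent. -/
def Cube {V : Type} (G : SimpleGraph V) {ι : Type} (c : ι → V) (ρ : Finset ι → V) : Prop :=
  Function.Injective ρ ∧ (∀ P Q, ¬ G.Adj (ρ P) (ρ Q)) ∧ ∀ P j, G.Adj (ρ P) (c j) ↔ j ∈ P

/-! ## Connected sets, separations -/

/-- `S` is nonempty and connected in `Q` (cut version). -/
def ConnIn {V : Type} (Q : SimpleGraph V) (S : Finset V) : Prop :=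
  S.Nonempty ∧ ∀ T ⊆ S, T.Nonempty → T ≠ S → ∃ x ∈ T, ∃ y ∈ S \ T, Q.Adj x y

/-- `(X₁, X₂)` is a separation of the set `X` in the graph `Q`. -/
def IsSep {V : Type} (Q : SimpleGraph V) (X X₁ X₂ : Finset V) : Prop :=
  X₁ ∪ X₂ = X ∧ ∀ x ∈ X₁ \ X₂, ∀ y ∈ X₂ \ X₁, ¬ Q.Adj x y

/-- `x` and `y` are separated in `Q` on `X` by fewer than `κ` vertices different from them. -/
def Sepd {V : Type} (κ : ℕ) (Q : SimpleGraph V) (X : Finset V) (x y : V) : Prop :=
  ∃ X₁ X₂ : Finset V, IsSep Q X X₁ X₂ ∧ (X₁ ∩ X₂).card < κ ∧ x ∈ X₁ \ X₂ ∧ y ∈ X₂ \ X₁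

/-- A model of the complete graph on the index set `ι`. -/
def Model {V ι : Type} (Q : SimpleGraph V) (C : ι → Finset V) : Prop :=
  (∀ i, ConnIn Q (C i)) ∧ (∀ i j, i ≠ j → Disjoint (C i) (C j)) ∧
    ∀ i j, i ≠ j → ∃ x ∈ C i, ∃ y ∈ C j, Q.Adj x y

/-! ## Systems of rows and columns -/

/-- A graph with a set `B` of rows, a set `A` of columns, sets `Bk x` of back neighbours and sets
`S x` of columns owned by `x`. -/
structure Sys (V : Type) where
  G : SimpleGraph V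
  B : Finset V
  A : Finset V
  Bk : V → Finset V
  S : V → Finset V

namespace Sys

variable {V : Type} (s : Sys V)

/-- The rows adjacent to `a`. -/
noncomputable def N (a : V) : Finset V := s.B.filter fun b => s.G.Adj a b

/-- The elements of `X` without back neighbours in `X`. -/
noncomputable def Free (X : Finset V) : Finset V := X.filter fun x => Disjoint (s.Bk x) X

/-- The active columns: they meet `X` in exactly two elements; these are free, and one of them owns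
the column. -/
noncomputable def Act (X : Finset V) : Finset V :=
  s.A.filter fun a => (s.N a ∩ X).card = 2 ∧ s.N a ∩ X ⊆ s.Free X ∧ ∃ x ∈ s.N a ∩ X, a ∈ s.S x

/-- The same with exactly three elements. -/
noncomputable def Tri (X : Finset V) : Finset V :=
  s.A.filter fun a => (s.N a ∩ X).card = 3 ∧ s.N a ∩ X ⊆ s.Free X ∧ ∃ x ∈ s.N a ∩ X, a ∈ s.S x

/-- The graph of the active columns. -/
def QG (X : Finset V) : SimpleGraph V where
  Adj x y := x ≠ y ∧ ∃ a ∈ s.Act X, s.N a ∩ X = {x, y}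
  symm := by
    constructor
    intro x y h
    obtain ⟨h1, a, h2, h3⟩ := h
    exact ⟨h1.symm, a, h2, by rw [h3, Finset.pair_comm]⟩
  loopless := ⟨fun x h => h.1 rfl⟩

/-- The pairs `(a, w)`: `a` is active in `X`, `w` is a further row of `a`, the three rows of `a` are
free in `X + w`, and the two rows of `a` in `X` are separated in the graph of `X + w`. -/
noncomputable def Bad (κ : ℕ) (X : Finset V) : Finset (V × V) :=
  (s.Act X ×ˢ (s.B \ X)).filter fun p =>
    p.2 ∈ s.N p.1 ∧ s.N p.1 ∩ insert p.2 X ⊆ s.Free (insert p.2 X) ∧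
      ∃ x ∈ s.N p.1 ∩ X, ∃ y ∈ s.N p.1 ∩ X, Sepd κ (s.QG (insert p.2 X)) (insert p.2 X) x y

/-- The hypotheses on the system. -/
structure OK (Λ D η : ℝ) (q : ℕ) : Prop where
  rows_ne : s.B.Nonempty
  disj : Disjoint s.A s.B
  one_le : 1 ≤ D
  eta_pos : 0 < η
  card_le : ∀ a ∈ s.A, ((s.N a).card : ℝ) ≤ Λ * D
  le_card : ∀ a ∈ s.A, D ≤ ((s.N a).card : ℝ)
  overlap : ∀ a ∈ s.A, ∀ a' ∈ s.A, a ≠ a' → ((s.N a ∩ s.N a').card : ℝ) ≤ η * D
  sparse : ∀ a ∈ s.A, ∀ a' ∈ s.A,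
    ((((s.N a) ×ˢ (s.N a')).filter fun p => s.G.Adj p.1 p.2).card : ℝ) ≤ η * D ^ 2
  back_adj : ∀ x, ∀ y ∈ s.Bk x, s.G.Adj x y
  back_card : ∀ x ∈ s.B, ((s.Bk x).card : ℝ) ≤ Λ * D
  back_cover : ∀ x ∈ s.B, ∀ y ∈ s.B, s.G.Adj x y → y ∈ s.Bk x ∨ x ∈ s.Bk y
  own : ∀ x ∈ s.B, ∀ a ∈ s.S x, a ∈ s.A ∧ x ∈ s.N a ∧
    (((s.N a).filter fun y => s.G.Adj x y).card : ℝ) ≤ η * D
  own_card : ∀ x ∈ s.B, (s.S x).card ≤ q
  own_sum : q * s.B.card ≤ 8 * ∑ x ∈ s.B, (s.S x).card

end Sys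

/-! ## Random subsets -/

/-- The expectation of `f X` for a random subset `X` of `B`, every element taken with
probability `p` independently. -/
noncomputable def Ex {V : Type} (p : ℝ) (B : Finset V) (f : Finset V → ℝ) : ℝ :=
  ∑ X ∈ B.powerset, p ^ X.card * (1 - p) ^ (B \ X).card * f X

/-- The expectation for two random disjoint subsets `Y`, `Z` of `B`: every element is in `Y` with
probability `p`, in `Z` with probability `p`, in none with probability `1 - 2 p`. -/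
noncomputable def EE {V : Type} (p : ℝ) (B : Finset V) (f : Finset V → Finset V → ℝ) : ℝ :=
  Ex p B fun Y => Ex (p / (1 - p)) (B \ Y) fun Z => f Y Z

/-! ## Dense spots -/

/-- The number of ordered pairs `(u, w)`, `u` in `U`, `w` in `W`, that are adjacent. -/
noncomputable def ePairs {V : Type} (G : SimpleGraph V) (U W : Finset V) : ℕ :=
  ((U ×ˢ W).filter fun p => G.Adj p.1 p.2).card

/-- No pair of sets of size at least `γ d` has density at least `ε`. -/
def NoSpot {V : Type} (G : SimpleGraph V) (ε γ d : ℝ) : Prop :=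
  ∀ U W : Finset V, γ * d ≤ U.card → γ * d ≤ W.card →
    (ePairs G U W : ℝ) < ε * (U.card * W.card)

end Pool.Agent.Helper35.PM
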