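import Pool.Agent.Helper67.PM.Final
import Pool.Agent.Helper46.PM.DenseSpot

/-!
# From the linear bound to the statement of the problem file
-/

set_option autoImplicit false

namespace Pool.Agent.Helper35.PM

open Finset
open scoped Classical

theorem ePairs_univ_eq {V : Type} [Fintype V] (G : SimpleGraph V) [DecidableRel G.Adj] :
    (ePairs G univ univ : ℝ) = ∑ x, (G.degree x : ℝ) := by
  rw [H46.ePairs_eq_sum]
  push_cast
  refine Finset.sum_congr rfl fun x _ => ?_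
  rw [H46.dgr_def, ← G.card_neighborFinset_eq_degree x]
  congr 2
  ext y
  simp

theorem noK_of_not_hom {V : Type} (G : SimpleGraph V) (s : ℕ)
    (h : ¬ ∃ f : completeBipartiteGraph (Fin s) (Fin s) →g G, Function.Injective f) :
    NoK G s s := by
  rintro ⟨A, B, hA, hB, hAB⟩
  refine h ?_
  let a : Fin s ≃ A := (Fin.castOrderIso hA.symm).toEquiv.trans A.equivFin.symm
  let b : Fin s ≃ B := (Fin.castOrderIso hB.symm).toEquiv.trans B.equivFin.symm
  refine ⟨⟨Sum.elim (fun i => (a i : V)) (fun i => (b i : V)), ?_⟩, ?_⟩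
  · rintro (i | i) (j | j) hij
    · simp at hij
    · exact hAB _ (a i).2 _ (b j).2
    · exact (hAB _ (a j).2 _ (b i).2).symm
    · simp at hij
  · rintro (i | i) (j | j) hij
    · simp only [RelHom.coeFn_mk, Sum.elim_inl] at hij
      rw [a.injective (Subtype.ext hij)]
    · simp only [RelHom.coeFn_mk, Sum.elim_inl, Sum.elim_inr] at hij
      exact absurd (hij ▸ hAB _ (a i).2 _ (b j).2) (G.loopless.irrefl _)
    · simp only [RelHom.coeFn_mk, Sum.elim_inl, Sum.elim_inr] at hij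
      exact absurd (hij ▸ hAB _ (a j).2 _ (b i).2) (G.loopless.irrefl _)
    · simp only [RelHom.coeFn_mk, Sum.elim_inr] at hij
      rw [b.injective (Subtype.ext hij)]

/-- The statement of the problem file for `H` follows from the linear bound. -/
theorem frozen_of_linear (W : Type) (H : SimpleGraph W) (h : LinearQ H) :
    ∃ C : ℝ, 0 < C ∧ ∀ s : ℕ, 0 < s →
      ∀ (V : Type) [Fintype V] (G : SimpleGraph V) [DecidableRel G.Adj],
        (¬ ∃ f : completeBipartiteGraph (Fin s) (Fin s) →g G, Function.Injective f) →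
        (¬ ∃ G' : SimpleGraph V,
            Relation.ReflTransGen
              (fun (A B : SimpleGraph V) => ∃ u v : V, A.Adj u v ∧
                B = SimpleGraph.fromRel (fun x y => Xor' (A.Adj x y)
                  ((((A.Adj u x ∧ A.Adj v x) ∧ (A.Adj u y ∧ ¬ A.Adj v y ∧ y ≠ v)) ∨
                    ((A.Adj u x ∧ ¬ A.Adj v x ∧ x ≠ v) ∧ (A.Adj u y ∧ A.Adj v y)) ∨
                    ((A.Adj u x ∧ A.Adj v x) ∧ (A.Adj v y ∧ ¬ A.Adj u y ∧ y ≠ u)) ∨
                    ((A.Adj v x ∧ ¬ A.Adj u x ∧ x ≠ u) ∧ (A.Adj u y ∧ A.Adj v y)) ∨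
                    ((A.Adj u x ∧ ¬ A.Adj v x ∧ x ≠ v) ∧ (A.Adj v y ∧ ¬ A.Adj u y ∧ y ≠ u)) ∨
                    ((A.Adj v x ∧ ¬ A.Adj u x ∧ x ≠ u) ∧ (A.Adj u y ∧ ¬ A.Adj v y ∧ y ≠ v))))))
              G G' ∧ Nonempty (H ↪g G')) →
        (∑ x, (G.degree x : ℝ)) ≤ C * (s : ℝ) * (Fintype.card V : ℝ) := by
  obtain ⟨C, hC, hmain⟩ := h
  refine ⟨C, hC, fun s hs V _ G _ hK hPM => ?_⟩
  rw [← ePairs_univ_eq G]
  exact hmain s hs V G (noK_of_not_hom G s hK) hPM

/-- The statement of the problem file for bipartite `H` follows from the dense case. -/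
theorem frozen_of_dense (W : Type) [Fintype W] (H : SimpleGraph W) (hH : H.Colorable 2)
    (h : DenseQ H) :
    ∃ C : ℝ, 0 < C ∧ ∀ s : ℕ, 0 < s →
      ∀ (V : Type) [Fintype V] (G : SimpleGraph V) [DecidableRel G.Adj],
        (¬ ∃ f : completeBipartiteGraph (Fin s) (Fin s) →g G, Function.Injective f) →
        (¬ ∃ G' : SimpleGraph V,
            Relation.ReflTransGen
              (fun (A B : SimpleGraph V) => ∃ u v : V, A.Adj u v ∧
                B = SimpleGraph.fromRel (fun x y => Xor' (A.Adj x y)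
                  ((((A.Adj u x ∧ A.Adj v x) ∧ (A.Adj u y ∧ ¬ A.Adj v y ∧ y ≠ v)) ∨
                    ((A.Adj u x ∧ ¬ A.Adj v x ∧ x ≠ v) ∧ (A.Adj u y ∧ A.Adj v y)) ∨
                    ((A.Adj u x ∧ A.Adj v x) ∧ (A.Adj v y ∧ ¬ A.Adj u y ∧ y ≠ u)) ∨
                    ((A.Adj v x ∧ ¬ A.Adj u x ∧ x ≠ u) ∧ (A.Adj u y ∧ A.Adj v y)) ∨
                    ((A.Adj u x ∧ ¬ A.Adj v x ∧ x ≠ v) ∧ (A.Adj v y ∧ ¬ A.Adj u y ∧ y ≠ u)) ∨
                    ((A.Adj v x ∧ ¬ A.Adj u x ∧ x ≠ u) ∧ (A.Adj u y ∧ ¬ A.Adj v y ∧ y ≠ v))))))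
              G G' ∧ Nonempty (H ↪g G')) →
        (∑ x, (G.degree x : ℝ)) ≤ C * (s : ℝ) * (Fintype.card V : ℝ) :=
  frozen_of_linear W H ((linear_iff_dense H (dense_spot H hH)).2 h)

end Pool.Agent.Helper35.PM
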