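import Pool.Agent.Helper35.PM.Defs

/-!
# Owned triples
-/

set_option autoImplicit false

namespace Pool.Agent.Helper35.PM

open Finset
open scoped Classical

namespace Sys

variable {V : Type} (s : Sys V)

/-- The pairs `(x, a)`: the column `a` is owned by `x ∈ Y`, meets `X = Y ∪ Z` in exactly three
elements, which are free, two of them in `Y`, one in `Z`. -/
noncomputable def TP (Y Z : Finset V) : Finset (V × V) :=
  (Y ×ˢ s.A).filter fun p => p.2 ∈ s.S p.1 ∧ p.1 ∈ s.N p.2 ∧ (s.N p.2 ∩ (Y ∪ Z)).card = 3 ∧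
    s.N p.2 ∩ (Y ∪ Z) ⊆ s.Free (Y ∪ Z) ∧ (s.N p.2 ∩ Y).card = 2

/-- The columns owned by `x` that are active in `X`. -/
noncomputable def own (X : Finset V) (x : V) : Finset V := (s.Act X).filter fun a => a ∈ s.S x

/-- The number of pairs `(x, a)`, `x ∈ X`, with `a` owned by `x` and active in `X`. -/
noncomputable def act2 (X : Finset V) : ℕ := ∑ x ∈ X, (s.own X x).card

/-- `x` is clean: the columns owned by `x` are disjoint on `X` outside of `x`. -/
def Clean (X : Finset V) (x : V) : Prop :=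
  ∀ a ∈ s.S x, ∀ a' ∈ s.S x, a ≠ a' → s.N a ∩ s.N a' ∩ X ⊆ {x}

/-- The third row of `a` is adjacent to the partner of `x` in some other owned column. -/
def Near (Y Z : Finset V) (x a : V) : Prop :=
  ∃ a' ∈ s.own Y x, ∃ y ∈ (s.N a' ∩ Y).erase x, ∃ w ∈ s.N a ∩ Z, s.G.Adj y w

/-- The active columns `a'` owned by `x` that are hit by an element of `Z` outside of `N a`, or
whose partner row is hit by such an element as a back neighbour. -/
noncomputable def hit (Y Z : Finset V) (x a : V) : Finset V :=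
  (s.own Y x).filter fun a' => ∃ z ∈ Z \ s.N a, z ∈ s.N a' ∨ ∃ y ∈ (s.N a' ∩ Y).erase x, z ∈ s.Bk y

/-- Too many active columns owned by `x` are hit. -/
def Lossy (Y Z : Finset V) (x a : V) : Prop :=
  (s.own Y x).card < 4 * (s.hit Y Z x a).card

/-- The column `a`, of three rows in `X`, becomes a bad pair by deleting one of them. -/
def Rot (κ : ℕ) (X : Finset V) (a : V) : Prop :=
  ∃ w ∈ s.N a ∩ X, (a, w) ∈ s.Bad κ (X.erase w)

/-- The number of active columns through `z`. -/
noncomputable def dg (X : Finset V) (z : V) : ℕ :=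
  ((s.Act X).filter fun a => z ∈ s.N a).card

/-- The number of active columns through `z` that contain `w`. -/
noncomputable def mu (X : Finset V) (z w : V) : ℕ :=
  ((s.Act X).filter fun a => z ∈ s.N a ∧ w ∈ s.N a).card

/-- The good owned triples. -/
noncomputable def GTP (κ : ℕ) (Y Z : Finset V) : Finset (V × V) :=
  (s.TP Y Z).filter fun p => s.Clean (Y ∪ Z) p.1 ∧ ¬ s.Near Y Z p.1 p.2 ∧ ¬ s.Lossy Y Z p.1 p.2 ∧
    ¬ s.Rot κ (Y ∪ Z) p.2

end Sys

end Pool.Agent.Helper35.PM
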