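import Pool.Agent.Helper35.PM.Defs2

/-!
# The linear bound and its dense case
-/

set_option autoImplicit false

namespace Pool.Agent.Helper35.PM

open Finset
open scoped Classical

/-- The dense spot statement for `H`. -/
def DenseSpotStatement {W : Type} (H : SimpleGraph W) : Prop :=
  ∃ ε γ d₀ : ℝ, 0 < ε ∧ 0 < γ ∧ 0 < d₀ ∧ ∀ (V : Type) [Fintype V] [Nonempty V]
      (G : SimpleGraph V) (d : ℝ), d₀ ≤ d → d * Fintype.card V ≤ ePairs G univ univ →
        NoSpot G ε γ d → HasPM H G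

/-- `G` has no subgraph `K_{t,s}`. -/
def NoK {V : Type} (G : SimpleGraph V) (t s : ℕ) : Prop :=
  ¬ ∃ A B : Finset V, A.card = t ∧ B.card = s ∧ ∀ a ∈ A, ∀ b ∈ B, G.Adj a b

/-- The linear bound of the problem for `H`. -/
def LinearQ {W : Type} (H : SimpleGraph W) : Prop :=
  ∃ C : ℝ, 0 < C ∧ ∀ s : ℕ, 0 < s → ∀ (V : Type) [Fintype V] (G : SimpleGraph V),
    NoK G s s → ¬ HasPM H G → (ePairs G univ univ : ℝ) ≤ C * s * Fintype.card V

/-- The dense case for `H`. -/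
def DenseQ {W : Type} (H : SimpleGraph W) : Prop :=
  ∀ ε : ℝ, 0 < ε → ∃ c : ℝ, 0 < c ∧ ∀ (V : Type) [Fintype V] (G : SimpleGraph V),
    ¬ HasPM H G → ε * (Fintype.card V : ℝ) ^ 2 ≤ ePairs G univ univ →
      ∃ A B : Finset V, c * Fintype.card V ≤ A.card ∧ c * Fintype.card V ≤ B.card ∧
        ∀ a ∈ A, ∀ b ∈ B, G.Adj a b

end Pool.Agent.Helper35.PM
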